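import Pool.Agent.Helper62.LH.StG

/-!
# Project LH (MP_087a81_gt), module PTR: parallel transport and constant speed
-/

set_option autoImplicit false

namespace Pool.Agent.Helper15.LH

open Set Filter Topology MeasureTheory
open Helper62.LH

section generic

variable {F : Type*} [NormedAddCommGroup F] [NormedSpace ℝ F]

theorem chain_bil {H : Type*} [NormedAddCommGroup H] [NormedSpace ℝ H] (g : F → H)
    (hg : Differentiable ℝ g) (c : ℝ → F) (c' : F) (S : Set ℝ) (s : ℝ)
    (hc : HasDerivWithinAt c c' S s) :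
    HasDerivWithinAt (fun s => g (c s)) (fderiv ℝ g (c s) c') S s :=
  (hg (c s)).hasFDerivAt.comp_hasDerivWithinAt s hc

theorem const_energy (g : F → F →L[ℝ] F →L[ℝ] ℝ) (Γ : F → F →L[ℝ] F →L[ℝ] F)
    (hg : Differentiable ℝ g)
    (hcomp : ∀ x w u v, fderiv ℝ g x w u v = g x (Γ x w u) v + g x u (Γ x w v))
    (c v V : ℝ → F) (a b : ℝ) (hc : ∀ t ∈ Icc a b, HasDerivWithinAt c (v t) (Icc a b) t)
    (hV : ∀ t ∈ Icc a b, HasDerivWithinAt V (-(Γ (c t) (v t) (V t))) (Icc a b) t) :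
    ∀ s ∈ Icc a b, ∀ t ∈ Icc a b, g (c s) (V s) (V s) = g (c t) (V t) (V t) := by
  have hd : ∀ t ∈ Icc a b, HasDerivWithinAt (fun t => g (c t) (V t) (V t)) 0 (Icc a b) t := by
    intro t ht
    have h1 := chain_bil g hg c (v t) (Icc a b) t (hc t ht)
    have h2 := (h1.clm_apply (hV t ht)).clm_apply (hV t ht)
    refine h2.congr_deriv ?_
    rw [add_apply, hcomp, map_neg, map_neg, neg_apply]
    ring
  intro s hs t ht
  have h := Convex.norm_image_sub_le_of_norm_hasDerivWithin_le (C := 0) hd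
    (fun x _ => by simp) (convex_Icc a b) ht hs
  rw [zero_mul] at h
  have h0 := norm_le_zero_iff.1 h
  exact sub_eq_zero.1 h0

end generic

/-- PTR. -/
theorem hPtr (hChr : StChr) (hLod : StLod) : StPtr := by
  intro n g Γ hg hΓ
  obtain ⟨hΓs, -, hcomp⟩ := hChr n g Γ hg hΓ
  have hgd : Differentiable ℝ g := hg.smooth.differentiable (by simp)
  refine ⟨?_, ?_⟩
  · intro c v v₀ hc hv
    have hcc : ContinuousOn c (Icc 0 1) := fun t ht => (hc t ht).continuousWithinAt
    have hΓc : ContinuousOn (fun s => Γ (c s)) (Icc 0 1) := hΓs.continuous.comp_continuousOn hcc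
    have hA : ContinuousOn (fun t => -(Γ (c t) (v t))) (Icc 0 1) := (hΓc.clm_apply hv).neg
    obtain ⟨V, hV1, hVd⟩ := hLod n (fun t => -(Γ (c t) (v t))) v₀ hA
    have hVd' : ∀ t ∈ Icc (0 : ℝ) 1,
        HasDerivWithinAt V (-(Γ (c t) (v t) (V t))) (Icc 0 1) t := hVd
    refine ⟨V, hV1, hVd', fun t ht => ?_⟩
    have := const_energy g Γ hgd hcomp c v V 0 1 hc hVd' t ht 1 (right_mem_Icc.2 zero_le_one)
    rw [this, hV1]
  · intro c v a b hgeo t ht
    exact const_energy g Γ hgd hcomp c v v a b hgeo.dc hgeo.dv t ht a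
      (left_mem_Icc.2 (ht.1.trans ht.2))

end Pool.Agent.Helper15.LH
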