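import Pool.Agent.Helper62.LH.StV

/-!
# Project LH (MP_087a81_gt), module RK: the rank argument
-/

set_option autoImplicit false

namespace Pool.Agent.Helper15.LH

open Set Filter Topology MeasureTheory
open scoped ContDiff ENNReal
open Helper62.LH

section generic

variable {F : Type*} [NormedAddCommGroup F] [NormedSpace ℝ F]

theorem cont_cf (Γ : F → F →L[ℝ] F →L[ℝ] F) (hΓ : Continuous Γ) (θ : F → F →L[ℝ] ℝ)
    (hθ : ContDiff ℝ ∞ θ) (u v : F) :
    Continuous (fun x => fderiv ℝ θ x u v - θ x (Γ x u v)) := by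
  have h1 : Continuous (fderiv ℝ θ) := hθ.continuous_fderiv (by simp)
  have h2 : Continuous θ := hθ.continuous
  exact ((h1.clm_apply continuous_const).clm_apply continuous_const).sub
    (h2.clm_apply ((hΓ.clm_apply continuous_const).clm_apply continuous_const))

theorem fderiv_comb {H : Type*} [NormedAddCommGroup H] [NormedSpace ℝ H] (m : ℕ)
    (θ : Fin m → F → H) (hθ : ∀ i, ContDiff ℝ ∞ (θ i)) (c : Fin m → ℝ) (x : F) :
    fderiv ℝ (fun y => ∑ i, c i • θ i y) x = ∑ i, c i • fderiv ℝ (θ i) x := by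
  have hd : ∀ i, DifferentiableAt ℝ (θ i) x := fun i =>
    ((hθ i).differentiable (by simp)).differentiableAt
  have h1 : HasFDerivAt (fun y => ∑ i, c i • θ i y) (∑ i, c i • fderiv ℝ (θ i) x) x :=
    HasFDerivAt.fun_sum fun i _ => (hd i).hasFDerivAt.const_smul (c i)
  exact h1.fderiv

theorem contDiff_comb {H : Type*} [NormedAddCommGroup H] [NormedSpace ℝ H] (m : ℕ)
    (θ : Fin m → F → H) (hθ : ∀ i, ContDiff ℝ ∞ (θ i)) (c : Fin m → ℝ) :
    ContDiff ℝ ∞ (fun y => ∑ i, c i • θ i y) :=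
  ContDiff.sum fun i _ => (hθ i).const_smul (c i)

end generic

/-- a normalised linear relation -/
theorem exists_unit_relation {V : Type*} [AddCommGroup V] [Module ℝ V]
    [FiniteDimensional ℝ V] (m : ℕ) (hm : Module.finrank ℝ V < m) (v : Fin m → V) :
    ∃ c : Fin m → ℝ, ∑ i, c i ^ 2 = 1 ∧ ∑ i, c i • v i = 0 := by
  have hnl : ¬ LinearIndependent ℝ v := by
    intro h
    have := h.fintype_card_le_finrank
    rw [Fintype.card_fin] at this
    omega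
  obtain ⟨g, hg0, i₀, hi₀⟩ := Fintype.not_linearIndependent_iff.1 hnl
  have hS : 0 < ∑ i, g i ^ 2 :=
    lt_of_lt_of_le (by positivity : 0 < g i₀ ^ 2)
      (Finset.single_le_sum (f := fun i => g i ^ 2) (fun i _ => sq_nonneg _) (Finset.mem_univ i₀))
  refine ⟨fun i => g i / √(∑ i, g i ^ 2), ?_, ?_⟩
  · simp only [div_pow, Real.sq_sqrt hS.le]
    rw [← Finset.sum_div, div_self hS.ne']
  · have : ∀ i, (g i / √(∑ i, g i ^ 2)) • v i = (√(∑ i, g i ^ 2))⁻¹ • (g i • v i) := by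
      intro i
      rw [smul_smul]
      congr 1
      rw [div_eq_mul_inv, mul_comm]
    simp only [this]
    rw [← Finset.smul_sum, hg0, smul_zero]

/-- a good point -/
theorem exists_good_point {A : Type*} [MeasurableSpace A] (μ : Measure A) [SFinite μ]
    (F : ℝ × A × A → ℝ≥0∞) (hF : Measurable F) (D : Set A) (hD0 : μ D ≠ 0) (hD1 : μ D ≠ ⊤)
    (K : ℝ≥0∞) (hint : ∫⁻ x in D, (∫⁻ y in D, (∫⁻ t in Icc (0 : ℝ) 1, F (t, x, y)) ∂μ) ∂μ
      ≤ K * μ D) :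
    ∃ x ∈ D, ∫⁻ y in D, (∫⁻ t in Icc (0 : ℝ) 1, F (t, x, y)) ∂μ ≤ K := by
  have h1 : Measurable (fun q : (A × A) × ℝ => F (q.2, q.1.1, q.1.2)) :=
    hF.comp (measurable_snd.prodMk measurable_fst)
  have h2 : Measurable (fun q : A × A => ∫⁻ t in Icc (0 : ℝ) 1, F (t, q.1, q.2)) :=
    h1.lintegral_prod_right'
  have h3 : Measurable (fun x : A => ∫⁻ y in D, (∫⁻ t in Icc (0 : ℝ) 1, F (t, x, y)) ∂μ) :=
    h2.lintegral_prod_right'
  obtain ⟨x, hxD, hx⟩ := exists_le_setLAverage hD0 hD1 h3.aemeasurable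
  refine ⟨x, hxD, hx.trans ?_⟩
  rw [setLAverage_eq]
  exact ENNReal.div_le_of_le_mul hint

theorem cont_N2 {n : ℕ} (g : E n → Bl n) (Γ : E n → Bm n)
    (hgi : ∀ i j, Continuous (fun x => gi g x i j)) (hΓ : Continuous Γ) (θ : E n → Dl n)
    (hθ : ContDiff ℝ ∞ θ) : Continuous (N2 g Γ θ) := by
  have hcf : ∀ u v, Continuous (fun x => cf Γ θ x u v) := fun u v => cont_cf Γ hΓ θ hθ u v
  have : N2 g Γ θ = fun x => ∑ i, ∑ j, gi g x i j * ∑ k, ∑ l, gi g x k l *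
      (cf Γ θ x (ee i) (ee k) * cf Γ θ x (ee j) (ee l)) := rfl
  rw [this]
  refine continuous_finsetSum _ fun i _ => continuous_finsetSum _ fun j _ => ?_
  refine (hgi i j).mul (continuous_finsetSum _ fun k _ => continuous_finsetSum _ fun l _ => ?_)
  exact (hgi k l).mul ((hcf _ _).mul (hcf _ _))

theorem cf_comb {n m : ℕ} (Γ : E n → Bm n) (θ : Fin m → E n → Dl n)
    (hθ : ∀ i, ContDiff ℝ ∞ (θ i)) (c : Fin m → ℝ) (x u v : E n) :
    cf Γ (fun y => ∑ i, c i • θ i y) x u v = ∑ i, c i * cB Γ (θ i) x u v := by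
  unfold cf
  rw [fderiv_comb m θ hθ c x]
  have h1 : (∑ i, c i • fderiv ℝ (θ i) x) u v = ∑ i, c i * fderiv ℝ (θ i) x u v := by
    simp
  have h2 : (∑ i, c i • θ i x) (Γ x u v) = ∑ i, c i * θ i x (Γ x u v) := by
    simp
  rw [h1, h2, ← Finset.sum_sub_distrib]
  refine Finset.sum_congr rfl fun i _ => ?_
  have h3 : cB Γ (θ i) x u v = fderiv ℝ (θ i) x u v - θ i x (Γ x u v) := rfl
  rw [h3, mul_sub]

/-- RK. -/
theorem hRk (hChr : StChr) (hMet : StMet) (hInb : StInb) (hShp : StShp) (hPth : StPth)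
    (hUsc : StUsc) (hSeg : StSeg) : StRk := by
  intro n g Γ hg hΓ hcpl hsec D hD hD0 hD1 hconv Δ hΔ hdiam θ hθ
  obtain ⟨hΓs, -, -⟩ := hChr n g Γ hg hΓ
  obtain ⟨-, -, hd0, -, -, -⟩ := hMet n g hg
  obtain ⟨-, -, hgi, -, -, -⟩ := hShp n g Γ hg hΓ
  have hN2c : ∀ i, Continuous (N2 g Γ (θ i)) := fun i =>
    cont_N2 g Γ (fun i j => (hgi i j).continuous) hΓs.continuous (θ i) (hθ i)
  set h : E n → ℝ := fun y => ∑ i, N2 g Γ (θ i) y with hh
  have hhc : Continuous h := continuous_finsetSum _ fun i _ => hN2c i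
  obtain ⟨hmeas, -⟩ := hUsc n g hg hcpl h hhc
  haveI : SFinite (mg g) := by unfold mg; infer_instance
  have hseg : ∫⁻ x in D, (∫⁻ y in D, (∫⁻ t in Icc (0 : ℝ) 1, HS g h t x y) ∂(mg g)) ∂(mg g)
      ≤ (2 ^ n * ∫⁻ y in D, ENNReal.ofReal (h y) ∂(mg g)) * mg g D := by
    refine (hSeg n g Γ hg hΓ hcpl hsec h hhc D hD hconv).trans (le_of_eq ?_)
    ring
  obtain ⟨x, hxD, hx⟩ := exists_good_point (mg g) (fun q => HS g h q.1 q.2.1 q.2.2) hmeas D
    hD0 hD1 _ hseg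
  replace hx : ∫⁻ y in D, (∫⁻ t in Icc (0 : ℝ) 1, HS g h t x y) ∂(mg g)
      ≤ 2 ^ n * ∫⁻ y in D, ENNReal.ofReal (h y) ∂(mg g) := hx
  -- the relation
  have hfr : Module.finrank ℝ (Dl n) < n + 1 := by
    have h1 := (InnerProductSpace.toDual ℝ (E n)).toLinearEquiv.finrank_eq
    have h2 : Module.finrank ℝ (E n) = n := by simp
    have h3 : Module.finrank ℝ (Dl n) = n := h1.symm.trans h2
    omega
  obtain ⟨c, hc1, hc0⟩ := exists_unit_relation (V := Dl n) (n + 1) hfr (fun i => θ i x)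
  refine ⟨c, hc1, ?_⟩
  set ζ : E n → Dl n := fun y => ∑ i, c i • θ i y with hζ
  have hζs : ContDiff ℝ ∞ ζ := contDiff_comb (n + 1) θ hθ c
  have hζx : ζ x = 0 := hc0
  have hN2 : ∀ y, N2 g Γ ζ y ≤ h y := by
    intro y
    obtain ⟨-, -, -, -, -, h6, -⟩ := hInb n g hg y
    have h7 := h6 (n + 1) c (fun i => cB Γ (θ i) y) hc1
    have e1 : N2 g Γ ζ y = nB g y (fun u v => ∑ i, c i * cB Γ (θ i) y u v) := by
      unfold N2
      congr 1
      funext u v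
      exact cf_comb Γ θ hθ c y u v
    rw [e1]
    exact h7
  have hHS : ∀ t y, HS g (N2 g Γ ζ) t x y ≤ HS g h t x y := fun t y =>
    iSup₂_mono fun z _ => ENNReal.ofReal_le_ofReal (hN2 z)
  have hpt : ∀ y ∈ D, ENNReal.ofReal (ip g y (ζ y) (ζ y)) ≤ ENNReal.ofReal (Δ ^ 2) *
      ∫⁻ t in Icc (0 : ℝ) 1, HS g h t x y := by
    intro y hy
    refine (hPth n g Γ hg hΓ hcpl ζ hζs x y hζx).trans ?_
    refine mul_le_mul' (ENNReal.ofReal_le_ofReal ?_) (lintegral_mono fun t => hHS t y)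
    exact pow_le_pow_left₀ (hd0 x y) (hdiam x hxD y hy) 2
  calc ∫⁻ y in D, ENNReal.ofReal (ip g y (ζ y) (ζ y)) ∂(mg g)
      ≤ ∫⁻ y in D, ENNReal.ofReal (Δ ^ 2) * (∫⁻ t in Icc (0 : ℝ) 1, HS g h t x y) ∂(mg g) :=
        setLIntegral_mono' hD hpt
    _ = ENNReal.ofReal (Δ ^ 2) * ∫⁻ y in D, (∫⁻ t in Icc (0 : ℝ) 1, HS g h t x y) ∂(mg g) :=
        lintegral_const_mul' _ _ ENNReal.ofReal_ne_top
    _ ≤ ENNReal.ofReal (Δ ^ 2) * (2 ^ n * ∫⁻ y in D, ENNReal.ofReal (h y) ∂(mg g)) :=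
        mul_le_mul' le_rfl hx
    _ = ENNReal.ofReal (2 ^ n * Δ ^ 2) * ∫⁻ y in D, ENNReal.ofReal (h y) ∂(mg g) := by
        have h2 : ENNReal.ofReal (2 ^ n) = 2 ^ n := by
          rw [ENNReal.ofReal_pow (by norm_num)]
          norm_num
        rw [ENNReal.ofReal_mul (by positivity), h2]
        ring

end Pool.Agent.Helper15.LH
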