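import Pool.Agent.Helper62.LH.StA

/-!
# Project LH (MP_087a81_gt), module THE: a primitive with small covariant derivative
-/

set_option autoImplicit false

namespace Pool.Agent.Helper15.LH

open Set Filter Topology MeasureTheory
open scoped ContDiff ENNReal
open Helper62.LH

section generic

variable {F : Type*} [NormedAddCommGroup F] [NormedSpace ℝ F]

theorem dd_add_gen (θ₀ : F → F →L[ℝ] ℝ) (hθ : Differentiable ℝ θ₀) (u : F → ℝ)
    (hu : ContDiff ℝ ∞ u) (x a b : F) :
    fderiv ℝ (fun y => θ₀ y + fderiv ℝ u y) x a b - fderiv ℝ (fun y => θ₀ y + fderiv ℝ u y) x b a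
      = fderiv ℝ θ₀ x a b - fderiv ℝ θ₀ x b a := by
  have hu2 : Differentiable ℝ (fderiv ℝ u) :=
    (hu.fderiv_right (m := ∞) le_rfl).differentiable (by simp)
  have h1 : HasFDerivAt (fun y => θ₀ y + fderiv ℝ u y) (fderiv ℝ θ₀ x + fderiv ℝ (fderiv ℝ u) x)
      x := (hθ x).hasFDerivAt.add (hu2 x).hasFDerivAt
  have hs : IsSymmSndFDerivAt ℝ u x := hu.contDiffAt.isSymmSndFDerivAt (by simp; exact ENat.LEInfty.out)
  rw [h1.fderiv, add_apply, add_apply, add_apply, add_apply, hs a b]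
  ring

theorem contDiff_add_gen (θ₀ : F → F →L[ℝ] ℝ) (hθ : ContDiff ℝ ∞ θ₀) (u : F → ℝ)
    (hu : ContDiff ℝ ∞ u) : ContDiff ℝ ∞ (fun y => θ₀ y + fderiv ℝ u y) :=
  hθ.add (hu.fderiv_right (m := ∞) le_rfl)

theorem contComp_gen (θ : F → F →L[ℝ] ℝ) (hθ : Continuous θ) (v : F) :
    Continuous (fun x => θ x v) := hθ.clm_apply continuous_const

end generic

theorem dd_add {n : ℕ} (θ₀ : E n → Dl n) (hθ : ContDiff ℝ ∞ θ₀) (u : E n → ℝ)
    (hu : ContDiff ℝ ∞ u) (x a b : E n) :
    dd (fun y => θ₀ y + fderiv ℝ u y) x a b = dd θ₀ x a b :=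
  dd_add_gen θ₀ (hθ.differentiable (by simp)) u hu x a b

theorem L2l_sub {n : ℕ} {u v : E n → ℝ} (hu : L2l u) (hv : L2l v) :
    L2l (fun x => u x - v x) := by
  refine ⟨hu.1.sub hv.1, fun K hK => ?_⟩
  have h1 := (hu.2 K hK).const_mul 2
  have h2 := (hv.2 K hK).const_mul 2
  refine (h1.add h2).mono' ?_ ?_
  · exact ((hu.1.sub hv.1).pow 2).restrict
  · refine Filter.Eventually.of_forall fun x => ?_
    rw [Real.norm_eq_abs, abs_of_nonneg (sq_nonneg _)]
    simp only [Pi.add_apply]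
    nlinarith [sq_nonneg (u x + v x)]

theorem L2l_cont {n : ℕ} {u : E n → ℝ} (hu : Continuous u) : L2l u :=
  ⟨hu.aestronglyMeasurable, fun _ hK => ((hu.pow 2).continuousOn).integrableOn_compact hK⟩

theorem L2f_sub {n : ℕ} {θ η : E n → Dl n} (hθ : L2f θ) (hη : L2f η) :
    L2f (fun x => θ x - η x) := fun j => L2l_sub (hθ j) (hη j)

theorem L2f_cont {n : ℕ} {θ : E n → Dl n} (hθ : Continuous θ) : L2f θ := fun j =>
  L2l_cont (contComp_gen θ hθ (ee j))

theorem ip_neg_neg {n : ℕ} (g : E n → Bl n) (x : E n) (a b : Dl n) :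
    ip g x (a - b) (a - b) = ip g x (b - a) (b - a) := by
  unfold ip
  congr 1
  funext u v
  rw [sub_apply, sub_apply, sub_apply, sub_apply]
  ring

/-- THE. -/
theorem hThe (_hChr : StChr) (hUt : StUt) (hIna : StIna) (hInb : StInb) (hHp : StHp) (hFr : StFr)
    (hLim : StLim) (hPl : StPl) (hWt : StWt) (hCut : StCut) : StThe := by
  intro n g Γ hg hΓ hsec p b κ₀ r0 hBus P hP R κ hκ
  obtain ⟨hipc, hiBc, hvolc, hvol0, -, hL2⟩ := hUt n g hg
  obtain ⟨θ₀, hθ₀s, hθ₀d⟩ := hPl n P hP.smooth hP.anti hP.closed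
  have hip0 : ∀ x (a : Dl n), 0 ≤ ip g x a a := fun x => (hIna n g hg x).1
  have hip6 : ∀ x (a b : Dl n), ip g x (a + b) (a + b) ≤ 2 * ip g x a a + 2 * ip g x b b := by
    intro x a b
    have := (hIna n g hg x).2.2.2.2.2.1 a b 1 one_pos
    norm_num at this
    exact this
  have hnB0 : ∀ x (B : Bl n), 0 ≤ nB g x (fun u v => B u v) := fun x => (hInb n g hg x).1
  have hhc : Continuous (fun x => ip g x (θ₀ x) (θ₀ x)) :=
    hipc θ₀ θ₀ hθ₀s.continuous hθ₀s.continuous
  obtain ⟨T, hT⟩ := hWt n g Γ hg hΓ p b κ₀ r0 hBus R _ hhc (fun x => hip0 x (θ₀ x))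
  obtain ⟨T', hT'T, hT'0⟩ : ∃ T' : ℝ, T ≤ T' ∧ 0 ≤ T' := ⟨max T 0, le_max_left _ _, le_max_right _ _⟩
  obtain ⟨ε, hε0, hεT⟩ : ∃ ε : ℝ, 0 < ε ∧ ε * T' ≤ 1 := by
    refine ⟨1 / (T' + 1), by positivity, ?_⟩
    rw [div_mul_eq_mul_div, one_mul, div_le_one (by linarith)]
    linarith
  obtain ⟨f, hfs, hf0, hfR, hfH, hfi, hfT⟩ := hT ε hε0
  have hwc : Continuous (fun x => Real.exp (-f x) * vol g x) :=
    (Real.continuous_exp.comp hfs.continuous.neg).mul hvolc
  have hw0 : ∀ x, 0 < Real.exp (-f x) * vol g x := fun x => mul_pos (Real.exp_pos _) (hvol0 x)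
  obtain ⟨θ, hθm, hθi, hθle, hθco, hθap⟩ := hHp n g hg _ hwc hw0 θ₀ hθ₀s.continuous hfi
  -- from the weight `w` to `vol` on compact sets
  have hmul : ∀ (G : E n → ℝ) (x : E n), G x * (Real.exp (-f x) * vol g x) * Real.exp (f x)
      = G x * vol g x := by
    intro G x
    have : Real.exp (-f x) * Real.exp (f x) = 1 := by rw [← Real.exp_add]; simp
    linear_combination (G x * vol g x) * this
  have hexpc : Continuous (fun x => Real.exp (f x)) := Real.continuous_exp.comp hfs.continuous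
  have hloc : ∀ (G : E n → ℝ), Integrable (fun x => G x * (Real.exp (-f x) * vol g x)) →
      ∀ K, IsCompact K → IntegrableOn (fun x => G x * vol g x) K := by
    intro G hG K hK
    have h1 : IntegrableOn (fun x => G x * (Real.exp (-f x) * vol g x) * Real.exp (f x)) K :=
      hG.integrableOn.mul_continuousOn hexpc.continuousOn hK
    simpa only [hmul G] using h1
  have hL2θ : L2f θ := (hL2 θ).2 ⟨hθm, hloc _ hθi⟩
  have hWk : WkD g P θ := by
    intro K hK κ' hκ'
    obtain ⟨M, hM⟩ := hK.bddAbove_image hexpc.continuousOn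
    obtain ⟨M', hM'0, hM'⟩ : ∃ M' : ℝ, 0 < M' ∧ ∀ x ∈ K, Real.exp (f x) ≤ M' := by
      refine ⟨max M 1, lt_of_lt_of_le one_pos (le_max_right _ _), fun x hx => ?_⟩
      exact (hM ⟨x, hx, rfl⟩).trans (le_max_left _ _)
    obtain ⟨u, hu, hui, hule⟩ := hθap (κ' / M') (by positivity)
    refine ⟨fun x => θ₀ x + fderiv ℝ u x, contDiff_add_gen θ₀ hθ₀s u hu.1, fun x a b => ?_, ?_⟩
    · rw [dd_add θ₀ hθ₀s u hu.1, hθ₀d]
    · have hi1 := hloc _ hui K hK
      have hi2 : IntegrableOn (fun x => M' * (ip g x (θ₀ x + fderiv ℝ u x - θ x)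
          (θ₀ x + fderiv ℝ u x - θ x) * (Real.exp (-f x) * vol g x))) K :=
        hui.integrableOn.const_mul M'
      calc ∫ x in K, ip g x (θ₀ x + fderiv ℝ u x - θ x) (θ₀ x + fderiv ℝ u x - θ x) * vol g x
          ≤ ∫ x in K, M' * (ip g x (θ₀ x + fderiv ℝ u x - θ x)
            (θ₀ x + fderiv ℝ u x - θ x) * (Real.exp (-f x) * vol g x)) := by
            refine setIntegral_mono_on hi1 hi2 hK.measurableSet fun x hx => ?_
            rw [← hmul (fun x => ip g x (θ₀ x + fderiv ℝ u x - θ x)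
              (θ₀ x + fderiv ℝ u x - θ x)) x, mul_comm M']
            exact mul_le_mul_of_nonneg_left (hM' x hx) (mul_nonneg (hip0 x _) (hw0 x).le)
        _ = M' * ∫ x in K, ip g x (θ₀ x + fderiv ℝ u x - θ x)
            (θ₀ x + fderiv ℝ u x - θ x) * (Real.exp (-f x) * vol g x) := integral_const_mul _ _
        _ ≤ M' * ∫ x, ip g x (θ₀ x + fderiv ℝ u x - θ x)
            (θ₀ x + fderiv ℝ u x - θ x) * (Real.exp (-f x) * vol g x) := by
            refine mul_le_mul_of_nonneg_left ?_ hM'0.le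
            exact setIntegral_le_integral hui
              (Filter.Eventually.of_forall fun x => mul_nonneg (hip0 x _) (hw0 x).le)
        _ ≤ M' * (κ' / M') := mul_le_mul_of_nonneg_left hule hM'0.le
        _ = κ' := by field_simp
  have hPc : Continuous P := hP.smooth.continuous
  have hnBc : Continuous (fun x => nB g x (fun u v => P x u v)) := hiBc P P hPc hPc
  have hApx := hFr n g Γ hg hΓ f hfs P θ hPc hL2θ hWk hθco
  have hexp1 : ∀ x, Real.exp (-f x) ≤ 1 := fun x => by
    rw [Real.exp_le_one_iff]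
    linarith [hf0 x]
  have hPi : Integrable (fun x => nB g x (fun u v => P x u v) *
      (Real.exp (-f x) * vol g x)) := by
    refine hP.int.mono' (hnBc.mul hwc).aestronglyMeasurable
      (Filter.Eventually.of_forall fun x => ?_)
    rw [Real.norm_eq_abs, abs_of_nonneg (mul_nonneg (hnB0 x _) (hw0 x).le)]
    refine mul_le_mul_of_nonneg_left ?_ (hnB0 x _)
    calc Real.exp (-f x) * vol g x ≤ 1 * vol g x :=
          mul_le_mul_of_nonneg_right (hexp1 x) (hvol0 x).le
      _ = vol g x := one_mul _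
  have hK : IsCompact {x | b x ≤ R} := hBus.prop R
  obtain ⟨θ', hθ's, hθ'1, hθ'2⟩ := hLim n g Γ hg hΓ hsec (hCut n g Γ hg hΓ p b κ₀ r0 hBus).1 f ε
    hfs hf0 hε0.le hfH P θ hPc hL2θ hApx hPi hθi _ hK (κ / 8) (by positivity)
  obtain ⟨θ'', hθ''s, hθ''d, hθ''1⟩ := hWk _ hK (κ / 8) (by positivity)
  refine ⟨θ', θ'', hθ's, hθ''s, hθ''d, ?_, ?_⟩
  · have hi1 : IntegrableOn (fun x => ip g x (θ' x - θ x) (θ' x - θ x) * vol g x)
        {x | b x ≤ R} :=
      ((hL2 _).1 (L2f_sub (L2f_cont hθ's.continuous) hL2θ)).2 _ hK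
    have hi2 : IntegrableOn (fun x => ip g x (θ'' x - θ x) (θ'' x - θ x) * vol g x)
        {x | b x ≤ R} :=
      ((hL2 _).1 (L2f_sub (L2f_cont hθ''s.continuous) hL2θ)).2 _ hK
    have hi3 : IntegrableOn (fun x => ip g x (θ' x - θ'' x) (θ' x - θ'' x) * vol g x)
        {x | b x ≤ R} :=
      ((hL2 _).1 (L2f_sub (L2f_cont hθ's.continuous) (L2f_cont hθ''s.continuous))).2 _ hK
    calc ∫ x in {x | b x ≤ R}, ip g x (θ' x - θ'' x) (θ' x - θ'' x) * vol g x
        ≤ ∫ x in {x | b x ≤ R}, (2 * (ip g x (θ' x - θ x) (θ' x - θ x) * vol g x)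
          + 2 * (ip g x (θ'' x - θ x) (θ'' x - θ x) * vol g x)) := by
          refine setIntegral_mono_on hi3 ((hi1.const_mul 2).add (hi2.const_mul 2))
            hK.measurableSet fun x _ => ?_
          have h1 := hip6 x (θ' x - θ x) (θ x - θ'' x)
          rw [sub_add_sub_cancel, ip_neg_neg g x (θ x) (θ'' x)] at h1
          calc ip g x (θ' x - θ'' x) (θ' x - θ'' x) * vol g x
              ≤ (2 * ip g x (θ' x - θ x) (θ' x - θ x)
                + 2 * ip g x (θ'' x - θ x) (θ'' x - θ x)) * vol g x :=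
                mul_le_mul_of_nonneg_right h1 (hvol0 x).le
            _ = _ := by ring
      _ = 2 * (∫ x in {x | b x ≤ R}, ip g x (θ' x - θ x) (θ' x - θ x) * vol g x)
          + 2 * ∫ x in {x | b x ≤ R}, ip g x (θ'' x - θ x) (θ'' x - θ x) * vol g x := by
          rw [integral_add (hi1.const_mul 2) (hi2.const_mul 2), integral_const_mul,
            integral_const_mul]
      _ ≤ κ := by linarith
  · have e1 : ∫ x in {x | b x ≤ R}, N2 g Γ θ' x * vol g x
        = ∫ x in {x | b x ≤ R}, N2 g Γ θ' x * (Real.exp (-f x) * vol g x) := by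
      refine setIntegral_congr_fun hK.measurableSet fun x hx => ?_
      have h1 : f x = 0 := hfR x hx
      have h2 : Real.exp (-f x) = 1 := by rw [h1]; simp
      change N2 g Γ θ' x * vol g x = N2 g Γ θ' x * (Real.exp (-f x) * vol g x)
      rw [h2, one_mul]
    have e2 : ∫ x, nB g x (fun u v => P x u v) / 2 * (Real.exp (-f x) * vol g x)
        ≤ ∫ x, nB g x (fun u v => P x u v) / 2 * vol g x := by
      have hi1 : Integrable (fun x => nB g x (fun u v => P x u v) / 2 *
          (Real.exp (-f x) * vol g x)) := by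
        have := hPi.const_mul (1 / 2)
        refine this.congr (Filter.Eventually.of_forall fun x => ?_)
        simp only
        ring
      have hi2 : Integrable (fun x => nB g x (fun u v => P x u v) / 2 * vol g x) := by
        have := hP.int.const_mul (1 / 2)
        refine this.congr (Filter.Eventually.of_forall fun x => ?_)
        simp only
        ring
      refine integral_mono hi1 hi2 fun x => ?_
      refine mul_le_mul_of_nonneg_left ?_ (div_nonneg (hnB0 x _) (by norm_num))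
      calc Real.exp (-f x) * vol g x ≤ 1 * vol g x :=
            mul_le_mul_of_nonneg_right (hexp1 x) (hvol0 x).le
        _ = vol g x := one_mul _
    have e3 : ε * ∫ x, ip g x (θ x) (θ x) * (Real.exp (-f x) * vol g x) ≤ 1 := by
      have h1 : ∫ x, ip g x (θ x) (θ x) * (Real.exp (-f x) * vol g x) ≤ T' :=
        (hθle.trans hfT).trans hT'T
      exact (mul_le_mul_of_nonneg_left h1 hε0.le).trans hεT
    rw [e1]
    linarith

end Pool.Agent.Helper15.LH
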