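import Pool.Agent.Helper62.LH.StG

/-!
# Project LH (MP_087a81_gt), module UP: upper barrier for the squared distance along a geodesic
-/

set_option autoImplicit false

namespace Pool.Agent.Helper15.LH

open Set Filter Topology MeasureTheory
open Helper62.LH


section generic

variable {F : Type*} [NormedAddCommGroup F] [NormedSpace ℝ F]

/-- second order Taylor expansion -/
theorem taylor_gen (β w : ℝ → F) (G : F) (a b τ₀ : ℝ)
    (hdc : ∀ t ∈ Icc a b, HasDerivWithinAt β (w t) (Icc a b) t)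
    (hdv : HasDerivWithinAt w (-G) (Icc a b) τ₀)
    (hτ₀ : τ₀ ∈ Ioo a b) (ε : ℝ) (hε : 0 < ε) :
    ∀ᶠ h in 𝓝 (0 : ℝ), ‖β (τ₀ + h) - (β τ₀ + h • w τ₀
      - (h ^ 2 / 2) • G)‖ ≤ ε * h ^ 2 := by
  have hw : HasDerivAt w (-G) τ₀ := hdv.hasDerivAt (Icc_mem_nhds hτ₀.1 hτ₀.2)
  have h1 : ∀ᶠ x in 𝓝 τ₀, ‖w x - w τ₀ - (x - τ₀) • (-G)‖ ≤ ε * ‖x - τ₀‖ :=
    (hasDerivAt_iff_isLittleO.1 hw).def hε
  have h2 : ∀ᶠ x in 𝓝 τ₀, x ∈ Ioo a b := Ioo_mem_nhds hτ₀.1 hτ₀.2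
  obtain ⟨δ, hδ, hball⟩ := Metric.eventually_nhds_iff_ball.1 (h1.and h2)
  refine Metric.eventually_nhds_iff_ball.2 ⟨δ, hδ, fun h hh => ?_⟩
  have hhδ : |h| < δ := by simpa [Real.dist_eq] using hh
  set r : ℝ → F := fun x => β (τ₀ + x) - (β τ₀ + x • w τ₀ - (x ^ 2 / 2) • G) with hr
  have hr0 : r 0 = 0 := by simp [hr]
  have hmem : ∀ x ∈ uIcc 0 h, |x| ≤ |h| := by
    intro x hx
    have := abs_sub_left_of_mem_uIcc hx
    simpa using this
  have hd : ∀ x ∈ uIcc 0 h, HasDerivWithinAt r (w (τ₀ + x) - (w τ₀ - x • G)) (uIcc 0 h) x := by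
    intro x hx
    have hx1 : τ₀ + x ∈ Metric.ball τ₀ δ := by
      rw [Metric.mem_ball, Real.dist_eq]
      have := hmem x hx
      have e : τ₀ + x - τ₀ = x := by ring
      rw [e]
      linarith
    have hx2 := (hball _ hx1).2
    have hb : HasDerivAt β (w (τ₀ + x)) (τ₀ + x) :=
      (hdc _ (Ioo_subset_Icc_self hx2)).hasDerivAt (Icc_mem_nhds hx2.1 hx2.2)
    have hb' : HasDerivAt (fun x => β (τ₀ + x)) (w (τ₀ + x)) x := by
      exact hb.comp_const_add τ₀ x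
    have h3 : HasDerivAt (fun x : ℝ => β τ₀ + x • w τ₀) (w τ₀) x := by
      have := ((hasDerivAt_id x).smul_const (w τ₀)).const_add (β τ₀)
      simpa using this
    have h4 : HasDerivAt (fun x : ℝ => (x ^ 2 / 2) • G) (x • G) x := by
      have h5 : HasDerivAt (fun x : ℝ => x ^ 2 / 2) x x := by
        have := ((hasDerivAt_id x).pow 2).div_const 2
        simpa using this
      exact h5.smul_const G
    exact (hb'.sub (h3.sub h4)).hasDerivWithinAt
  have hbd : ∀ x ∈ uIcc 0 h, ‖w (τ₀ + x) - (w τ₀ - x • G)‖ ≤ ε * |h| := by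
    intro x hx
    have hx0 := hmem x hx
    have hx1 : τ₀ + x ∈ Metric.ball τ₀ δ := by
      rw [Metric.mem_ball, Real.dist_eq]
      have e : τ₀ + x - τ₀ = x := by ring
      rw [e]
      linarith
    have h3 := (hball _ hx1).1
    have e : τ₀ + x - τ₀ = x := by ring
    rw [e, Real.norm_eq_abs] at h3
    have e2 : w (τ₀ + x) - w τ₀ - x • (-G) = w (τ₀ + x) - (w τ₀ - x • G) := by
      rw [smul_neg]
      abel
    rw [e2] at h3
    exact h3.trans (mul_le_mul_of_nonneg_left hx0 hε.le)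
  have h5 := Convex.norm_image_sub_le_of_norm_hasDerivWithin_le hd hbd (convex_uIcc 0 h)
    left_mem_uIcc right_mem_uIcc
  rw [hr0, sub_zero, sub_zero, Real.norm_eq_abs] at h5
  calc ‖r h‖ ≤ ε * |h| * |h| := h5
    _ = ε * h ^ 2 := by rw [mul_assoc, abs_mul_abs_self, sq]

/-- the variation -/
noncomputable def qq (Γ : F → F →L[ℝ] F →L[ℝ] F) (c V : ℝ → F) (h : ℝ) (ρ : F) (s : ℝ) : F :=
  c s + h • (s • V s) - (h ^ 2 / 2) • Γ (c s) (s • V s) (s • V s) + s • ρ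

/-- its derivative -/
noncomputable def qd (Γ : F → F →L[ℝ] F →L[ℝ] F) (c v V V' : ℝ → F) (h : ℝ) (ρ : F) (s : ℝ) :
    F :=
  v s + h • (V s + s • V' s)
      - (h ^ 2 / 2) • (fderiv ℝ Γ (c s) (v s) (s • V s) (s • V s)
        + (2 : ℝ) • Γ (c s) (s • V s) (V s + s • V' s)) + ρ

theorem hasDerivWithinAt_sV {V : ℝ → F} {V' : F} {S : Set ℝ} {s : ℝ}
    (hV : HasDerivWithinAt V V' S s) :
    HasDerivWithinAt (fun s => s • V s) (V s + s • V') S s := by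
  have := (hasDerivWithinAt_id s S).smul hV
  refine this.congr_deriv ?_
  simp only [id, one_smul]
  rw [add_comm]

theorem comp1 {H : Type*} [NormedAddCommGroup H] [NormedSpace ℝ H] (Γ : F → H)
    (hΓ : Differentiable ℝ Γ) (c : ℝ → F) (c' : F) (S : Set ℝ) (s : ℝ)
    (hc : HasDerivWithinAt c c' S s) :
    HasDerivWithinAt (fun s => Γ (c s)) (fderiv ℝ Γ (c s) c') S s :=
  (hΓ (c s)).hasFDerivAt.comp_hasDerivWithinAt s hc

theorem hasDerivWithinAt_qq (Γ : F → F →L[ℝ] F →L[ℝ] F) (hΓ : Differentiable ℝ Γ)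
    (hsym : ∀ x u v, Γ x u v = Γ x v u) (c v V V' : ℝ → F) (S : Set ℝ) (s : ℝ)
    (hc : HasDerivWithinAt c (v s) S s) (hV : HasDerivWithinAt V (V' s) S s) (h : ℝ) (ρ : F) :
    HasDerivWithinAt (qq Γ c V h ρ) (qd Γ c v V V' h ρ s) S s := by
  have h2 := hasDerivWithinAt_sV hV
  have hΓd : HasDerivWithinAt (fun s => Γ (c s)) (fderiv ℝ Γ (c s) (v s)) S s :=
    comp1 Γ hΓ c (v s) S s hc
  have h3 := (hΓd.clm_apply h2).clm_apply h2
  have h4 : HasDerivWithinAt (fun s : ℝ => s • ρ) ρ S s := by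
    have := (hasDerivWithinAt_id s S).smul_const ρ
    simpa using this
  have h5 := ((hc.add (h2.const_smul h)).sub (h3.const_smul (h ^ 2 / 2))).add h4
  refine h5.congr_deriv ?_
  unfold qd
  congr 3
  rw [add_apply, hsym (c s) (V s + s • V' s) (s • V s), two_smul, add_assoc]

theorem continuousOn_qd (Γ : F → F →L[ℝ] F →L[ℝ] F) (hΓs : ContDiff ℝ 1 Γ)
    (c v V V' : ℝ → F) (S : Set ℝ)
    (hc : ContinuousOn c S) (hv : ContinuousOn v S) (hV : ContinuousOn V S)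
    (hV' : ContinuousOn V' S) (h : ℝ) (ρ : F) :
    ContinuousOn (qd Γ c v V V' h ρ) S := by
  have hΓ : Continuous Γ := hΓs.continuous
  have hΓ' : Continuous (fderiv ℝ Γ) := hΓs.continuous_fderiv one_ne_zero
  have hid : ContinuousOn (fun s : ℝ => s) S := continuousOn_id
  have hD : ContinuousOn (fun s => fderiv ℝ Γ (c s)) S := hΓ'.comp_continuousOn hc
  have hG : ContinuousOn (fun s => Γ (c s)) S := hΓ.comp_continuousOn hc
  have hsV : ContinuousOn (fun s => s • V s) S := hid.smul hV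
  have hb : ContinuousOn (fun s => V s + s • V' s) S := hV.add (hid.smul hV')
  have h1 : ContinuousOn (fun s => fderiv ℝ Γ (c s) (v s) (s • V s) (s • V s)
        + (2 : ℝ) • Γ (c s) (s • V s) (V s + s • V' s)) S :=
    (((hD.clm_apply hv).clm_apply hsV).clm_apply hsV).add
      (((hG.clm_apply hsV).clm_apply hb).const_smul (2 : ℝ))
  exact ((hv.add (hb.const_smul h)).sub (h1.const_smul (h ^ 2 / 2))).add continuousOn_const

theorem continuousOn_bil (g : F → F →L[ℝ] F →L[ℝ] ℝ) (hg : Continuous g) (c u v : ℝ → F)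
    (S : Set ℝ) (hc : ContinuousOn c S) (hu : ContinuousOn u S) (hv : ContinuousOn v S) :
    ContinuousOn (fun s => g (c s) (u s) (v s)) S :=
  ((hg.comp_continuousOn hc).clm_apply hu).clm_apply hv

end generic

/-- the analytic part: from the pointwise bound to the barrier -/
theorem integrate_bound (A B : ℝ → ℝ) (d L h G C ρ α : ℝ)
    (hA : ContinuousOn A (Icc 0 1)) (hB : ContinuousOn B (Icc 0 1))
    (hα : α = ∫ s in (0 : ℝ)..1, B s) (hd : d ^ 2 ≤ ∫ s in (0 : ℝ)..1, A s)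
    (hpt : ∀ s ∈ Icc (0 : ℝ) 1, A s ≤ L ^ 2 + 2 * h * B s
        + (h ^ 2 * G + 2 * C * (|h| ^ 3 + 2 * ρ))) :
    d ^ 2 / 2 ≤ L ^ 2 / 2 + α * h + G / 2 * h ^ 2 + C * (|h| ^ 3 + 2 * ρ) := by
  have hint1 : IntervalIntegrable A volume 0 1 := by
    apply ContinuousOn.intervalIntegrable
    rw [uIcc_of_le zero_le_one]
    exact hA
  have hint2 : IntervalIntegrable B volume 0 1 := by
    apply ContinuousOn.intervalIntegrable
    rw [uIcc_of_le zero_le_one]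
    exact hB
  have hint3 : IntervalIntegrable (fun s => L ^ 2 + 2 * h * B s
      + (h ^ 2 * G + 2 * C * (|h| ^ 3 + 2 * ρ))) volume 0 1 :=
    ((intervalIntegrable_const (c := L ^ 2)).add (hint2.const_mul (2 * h))).add
      intervalIntegrable_const
  have hmono := intervalIntegral.integral_mono_on zero_le_one hint1 hint3 hpt
  have heval : ∫ s in (0 : ℝ)..1, (L ^ 2 + 2 * h * B s
      + (h ^ 2 * G + 2 * C * (|h| ^ 3 + 2 * ρ)))
      = L ^ 2 + 2 * h * α + (h ^ 2 * G + 2 * C * (|h| ^ 3 + 2 * ρ)) := by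
    rw [intervalIntegral.integral_add ((intervalIntegrable_const (c := L ^ 2)).add
      (hint2.const_mul (2 * h))) intervalIntegrable_const,
      intervalIntegral.integral_add intervalIntegrable_const (hint2.const_mul (2 * h)),
      intervalIntegral.integral_const_mul, hα]
    simp
  rw [heval] at hmono
  linarith

/-- elementary end of the proof -/
theorem final_bound (D : ℝ → ℝ) (R : ℝ → ℝ) (L α G C ε : ℝ) (hC0 : 0 ≤ C) (hε : 0 < ε)
    (hR0 : ∀ h, 0 ≤ R h)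
    (main : ∀ h : ℝ, |h| ≤ 1 → R h ≤ 1 →
      D h ^ 2 / 2 ≤ L ^ 2 / 2 + α * h + G / 2 * h ^ 2 + C * (|h| ^ 3 + 2 * R h))
    (hR : ∀ ε > 0, ∀ᶠ h in 𝓝 (0 : ℝ), R h ≤ ε * h ^ 2) :
    ∀ᶠ h in 𝓝 (0 : ℝ), D h ^ 2 / 2 ≤ L ^ 2 / 2 + α * h + (G / 2 + ε) * h ^ 2 := by
  have hC1 : 0 < C + 1 := by linarith
  have hr1 := hR (ε / (4 * (C + 1))) (by positivity)
  have hr2 := hR 1 one_pos
  have hh1 : ∀ᶠ h in 𝓝 (0 : ℝ), |h| < 1 := by
    have := Metric.ball_mem_nhds (0 : ℝ) one_pos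
    filter_upwards [this] with h hh
    simpa [Real.dist_eq] using hh
  have hh2 : ∀ᶠ h in 𝓝 (0 : ℝ), |h| < ε / (2 * (C + 1)) := by
    have := Metric.ball_mem_nhds (0 : ℝ) (show 0 < ε / (2 * (C + 1)) by positivity)
    filter_upwards [this] with h hh
    simpa [Real.dist_eq] using hh
  filter_upwards [hr1, hr2, hh1, hh2] with h h1 h2 h3 h4
  have hsq : h ^ 2 ≤ 1 := by
    have := abs_nonneg h
    rw [← sq_abs]
    nlinarith
  have hm := main h h3.le (h2.trans (by linarith))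
  have e1 : C * |h| ^ 3 ≤ ε / 2 * h ^ 2 := by
    have k1 : |h| ^ 3 = |h| * h ^ 2 := by
      rw [← sq_abs h]; ring
    have k2 : C * |h| ≤ ε / 2 := by
      calc C * |h| ≤ (C + 1) * |h| := by nlinarith [abs_nonneg h]
        _ ≤ (C + 1) * (ε / (2 * (C + 1))) := mul_le_mul_of_nonneg_left h4.le hC1.le
        _ = ε / 2 := by field_simp
    rw [k1, ← mul_assoc]
    exact mul_le_mul_of_nonneg_right k2 (sq_nonneg h)
  have e2 : C * (2 * R h) ≤ ε / 2 * h ^ 2 := by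
    calc C * (2 * R h) ≤ (C + 1) * (2 * R h) := by nlinarith [hR0 h]
      _ ≤ (C + 1) * (2 * (ε / (4 * (C + 1)) * h ^ 2)) :=
          mul_le_mul_of_nonneg_left (by linarith) hC1.le
      _ = ε / 2 * h ^ 2 := by field_simp; ring
  calc D h ^ 2 / 2 ≤ L ^ 2 / 2 + α * h + G / 2 * h ^ 2
      + C * (|h| ^ 3 + 2 * R h) := hm
    _ = L ^ 2 / 2 + α * h + G / 2 * h ^ 2 + (C * |h| ^ 3 + C * (2 * R h)) := by ring
    _ ≤ L ^ 2 / 2 + α * h + (G / 2 + ε) * h ^ 2 := by linarith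

/-- UP. -/
theorem hUp (hChr : StChr) (hCur : StCur) (hSv : StSv) (hMg : StMg) (hDge : StDge)
    (hRgc : StRgc) (hPtr : StPtr) : StUp := by
  intro n g Γ hg hΓ hcpl hsec p β w a b τ₀ hβ hτ₀
  obtain ⟨hΓs, hΓsym, -⟩ := hChr n g Γ hg hΓ
  obtain ⟨c, hc⟩ := hMg n g hg hcpl p (β τ₀)
  obtain ⟨v, hgeo, hspeed⟩ := hRgc n g Γ hg hΓ c p (β τ₀) hc
  obtain ⟨hc0, hc1, -⟩ := hc
  have hvc : ContinuousOn v (Icc 0 1) := fun t ht => (hgeo.dv t ht).continuousWithinAt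
  have hcc : ContinuousOn c (Icc 0 1) := fun t ht => (hgeo.dc t ht).continuousWithinAt
  obtain ⟨V, hV1, hVd, hVg⟩ := (hPtr n g Γ hg hΓ).1 c v (w τ₀) hgeo.dc hvc
  have hVc : ContinuousOn V (Icc 0 1) := fun t ht => (hVd t ht).continuousWithinAt
  have hΓc : Continuous Γ := hΓs.continuous
  have hΓd : Differentiable ℝ Γ := hΓs.differentiable (by simp)
  have hΓ1 : ContDiff ℝ 1 Γ := hΓs.of_le (by simp)
  have hgc : Continuous g := hg.smooth.continuous
  obtain ⟨V', hV'⟩ : ∃ V' : ℝ → E n, ∀ s, V' s = -(Γ (c s) (v s) (V s)) := ⟨_, fun s => rfl⟩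
  have hV'c : ContinuousOn V' (Icc 0 1) := by
    have h1 : ContinuousOn (fun s => Γ (c s)) (Icc 0 1) := hΓc.comp_continuousOn hcc
    exact ((h1.clm_apply hvc).clm_apply hVc).neg.congr fun s _ => hV' s
  have hVd' : ∀ s ∈ Icc (0 : ℝ) 1, HasDerivWithinAt V (V' s) (Icc 0 1) s := fun s hs => by
    rw [hV']; exact hVd s hs
  have hidc : ContinuousOn (fun s : ℝ => s) (Icc (0 : ℝ) 1) := continuousOn_id
  have hκc : ContinuousOn (fun s => (c s, v s, s • V s, V s + s • V' s)) (Icc 0 1) :=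
    hcc.prodMk (hvc.prodMk ((hidc.smul hVc).prodMk (hVc.add (hidc.smul hV'c))))
  obtain ⟨C, hC0, hC⟩ := hSv n g Γ hg hΓ _ (isCompact_Icc.image_of_continuousOn hκc)
  obtain ⟨r, hr⟩ : ∃ r : ℝ → E n, ∀ h, r h = β (τ₀ + h) - (β τ₀ + h • w τ₀
      - (h ^ 2 / 2) • Γ (β τ₀) (w τ₀) (w τ₀)) := ⟨_, fun h => rfl⟩
  -- the main inequality
  have main : ∀ h : ℝ, |h| ≤ 1 → ‖r h‖ ≤ 1 →
      dg g p (β (τ₀ + h)) ^ 2 / 2 ≤ dg g p (β τ₀) ^ 2 / 2
        + (∫ s in (0 : ℝ)..1, g (c s) (v s) (V s)) * h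
        + g (β τ₀) (w τ₀) (w τ₀) / 2 * h ^ 2 + C * (|h| ^ 3 + 2 * ‖r h‖) := by
    intro h hh hrh
    have hqd : ∀ s ∈ Icc (0 : ℝ) 1,
        HasDerivWithinAt (qq Γ c V h (r h)) (qd Γ c v V V' h (r h) s) (Icc 0 1) s :=
      fun s hs => hasDerivWithinAt_qq Γ hΓd hΓsym c v V V' _ s (hgeo.dc s hs) (hVd' s hs) h (r h)
    have hq'c : ContinuousOn (qd Γ c v V V' h (r h)) (Icc 0 1) :=
      continuousOn_qd Γ hΓ1 c v V V' _ hcc hvc hVc hV'c h (r h)
    have hqc : ContinuousOn (qq Γ c V h (r h)) (Icc 0 1) :=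
      fun s hs => (hqd s hs).continuousWithinAt
    have hq0 : qq Γ c V h (r h) 0 = p := by
      unfold qq
      simp [hc0]
    have hq1 : qq Γ c V h (r h) 1 = β (τ₀ + h) := by
      unfold qq
      rw [one_smul, one_smul, hV1, hc1, hr]
      abel
    have hdge := hDge n g hg _ _ hqd hq'c
    rw [hq0, hq1] at hdge
    refine integrate_bound _ (fun s => g (c s) (v s) (V s)) _ _ h _ C ‖r h‖ _
      (continuousOn_bil g hgc _ _ _ _ hqc hq'c hq'c) (continuousOn_bil g hgc _ _ _ _ hcc hvc hVc)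
      rfl hdge ?_
    intro s hs
    have hs1 : |s| ≤ 1 := by rw [abs_of_nonneg hs.1]; exact hs.2
    have he : ‖s • r h‖ ≤ ‖r h‖ := by
      rw [norm_smul, Real.norm_eq_abs]
      calc |s| * ‖r h‖ ≤ 1 * ‖r h‖ := mul_le_mul_of_nonneg_right hs1 (norm_nonneg _)
        _ = ‖r h‖ := one_mul _
    have h1 := hC (c s) (v s) (s • V s) (V s + s • V' s) ⟨s, hs, rfl⟩ h hh (s • r h) (r h)
      (he.trans hrh) hrh
    have e1 : V s + s • V' s + Γ (c s) (v s) (s • V s) = V s := by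
      rw [hV', map_smul, smul_neg]
      abel
    have e2 : g (c s) (v s) (v s) = dg g p (β τ₀) ^ 2 := hspeed s hs
    have e3 : g (c s) (V s) (V s) = g (β τ₀) (w τ₀) (w τ₀) := by
      rw [hVg s hs, hc1]
    have e4 : g (c s) (Rm Γ (c s) (s • V s) (v s) (s • V s)) (v s) ≤ 0 := by
      rw [hCur n g Γ hg hΓ]
      have := hsec (c s) (s • V s) (v s)
      linarith
    rw [e1, e2, e3] at h1
    change g (qq Γ c V h (r h) s) (qd Γ c v V V' h (r h) s) (qd Γ c v V V' h (r h) s) / 2 ≤ _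
      at h1
    have h2 : 0 ≤ h ^ 2 / 2 := by positivity
    have h3 : h ^ 2 / 2 * (g (β τ₀) (w τ₀) (w τ₀)
        + g (c s) (Rm Γ (c s) (s • V s) (v s) (s • V s)) (v s))
        ≤ h ^ 2 / 2 * g (β τ₀) (w τ₀) (w τ₀) := mul_le_mul_of_nonneg_left (by linarith) h2
    have h4 : C * (|h| ^ 3 + ‖s • r h‖ + ‖r h‖) ≤ C * (|h| ^ 3 + 2 * ‖r h‖) :=
      mul_le_mul_of_nonneg_left (by linarith) hC0
    linarith
  -- conclusion
  refine ⟨∫ s in (0 : ℝ)..1, g (c s) (v s) (V s), fun ε hε => ?_⟩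
  have hall := final_bound (fun h => dg g p (β (τ₀ + h))) (fun h => ‖r h‖) (dg g p (β τ₀)) _
    (g (β τ₀) (w τ₀) (w τ₀)) C ε hC0 hε (fun h => norm_nonneg _) main (fun ε' hε' => by
      have := taylor_gen β w (Γ (β τ₀) (w τ₀) (w τ₀)) a b τ₀ hβ.dc
        (hβ.dv τ₀ (Ioo_subset_Icc_self hτ₀)) hτ₀ ε' hε'
      filter_upwards [this] with h hh
      rw [hr]
      exact hh)
  have ht : Tendsto (fun τ : ℝ => τ - τ₀) (𝓝 τ₀) (𝓝 0) := by
    have : Tendsto (fun τ : ℝ => τ - τ₀) (𝓝 τ₀) (𝓝 (τ₀ - τ₀)) :=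
      (continuous_id.sub continuous_const).tendsto τ₀
    simpa using this
  filter_upwards [ht.eventually hall] with τ hτ
  have e : τ₀ + (τ - τ₀) = τ := by ring
  rw [e] at hτ
  exact hτ

end Pool.Agent.Helper15.LH
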